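import Pool.Agent.Y981.Sup2

/-!
The boundary path of the O(n) model for `n = 0`, `x = x_c(0)` (critical self-avoiding walk on the
honeycomb lattice) in discrete domains, between two flat boundary points: the path stays in any given
connected open set (for instance a thin tube around a curve) with quasi-polynomial probability in the
mesh in general, and with polynomial probability if the domain lies between two parallel lines or in a
half-plane.
-/

set_option autoImplicit false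

namespace Pool.Agent.Results.MP_4960b8_pr.Support

open scoped ENNReal

/-- Adjacency in the honeycomb lattice (brick-wall coordinates). -/
def Nbr (p q : ℤ × ℤ) : Prop :=
  (p.2 = q.2 ∧ (p.1 - q.1 = 1 ∨ q.1 - p.1 = 1)) ∨
    (p.1 = q.1 ∧ ((q.2 = p.2 + 1 ∧ Even (p.1 + p.2)) ∨ (p.2 = q.2 + 1 ∧ Even (q.1 + q.2))))

/-- The self-avoiding trajectories from `a` to `b` in `D`, as lists of vertices (the configurations of
the model for `n = 0`). -/
def Traj (D : Set (ℤ × ℤ)) (a b : ℤ × ℤ) : Set (List (ℤ × ℤ)) :=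
  {l | l.head? = some a ∧ l.getLast? = some b ∧ l.Nodup ∧ l.IsChain Nbr ∧ ∀ p ∈ l, p ∈ D}

/-- The critical fugacity `1 / μ`. -/
noncomputable def xc : ℝ≥0∞ := ENNReal.ofReal (1 / Real.sqrt (2 + Real.sqrt 2))

/-- The critical partition function: the sum of `xc ^ (number of steps)` over the trajectories. -/
noncomputable def Z (D : Set (ℤ × ℤ)) (a b : ℤ × ℤ) : ℝ≥0∞ :=
  ∑' l : Traj D a b, xc ^ (l.1.length - 1)

/-- The probability that the critical trajectory in `D` from `a` to `b` stays in `T`. -/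
noncomputable def P (D : Set (ℤ × ℤ)) (a b : ℤ × ℤ) (T : Set (ℤ × ℤ)) : ℝ≥0∞ :=
  Z (D ∩ T) a b / Z D a b

/-- The position of the vertices in the plane: the honeycomb lattice with unit edge length (`Nbr p q`
if and only if the points `emb p` and `emb q` have distance `1`). -/
noncomputable def emb (v : ℤ × ℤ) : ℂ :=
  ⟨Real.sqrt 3 / 2 * v.1, 3 / 2 * v.2 + if Even (v.1 + v.2) then 1 / 2 else 0⟩

/-- The coordinate in the direction `u = exp (- i π / 6)`, one of the directions of the edges. -/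
noncomputable def lv (z : ℂ) : ℝ := (Real.sqrt 3 * z.re - z.im) / 2

/-- The open half-disc with centre `a` and radius `r` on the side `ε u` of `a` (`ε = 1` or
`ε = -1`). -/
def HD (a : ℂ) (ε r : ℝ) : Set ℂ := {z | ‖z - a‖ < r ∧ 0 < ε * (lv z - lv a)}

/-- The vertices in the half-disc (with its diameter) with centre `δ p` and radius `r`, on the
side `ε u` of `p`, for the lattice with mesh `δ`. -/
def Hd (δ ε r : ℝ) (p : ℤ × ℤ) : Set (ℤ × ℤ) :=
  {v | ‖(δ : ℂ) * emb v - δ * emb p‖ < r ∧ 0 ≤ ε * (lv (emb v) - lv (emb p))}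

/-- `p` is the lattice point with an edge in the direction `- ε u`: a boundary vertex of a half-plane
on the side `ε u`. -/
def Bd (ε : ℝ) (p : ℤ × ℤ) : Prop :=
  (ε = 1 ∧ Odd (p.1 + p.2)) ∨ (ε = -1 ∧ Even (p.1 + p.2))

/-- **Theorem.** Let `W` be a connected open set of the plane, `a ≠ b` points such that `W` contains
a half-disc with centre `a` on the side `ε u` and a half-disc with centre `b` on the side `ε' u`, and
`M` a real number.  There are a compact set `K` contained in `W` and `C ≥ 1` such that for every mesh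
`δ ≤ 1 / C`, all boundary vertices `p` and `q` with `δ p` and `δ q` at distance at most `1 / C` of `a`
and `b`, every set `T` of vertices which contains the vertices of `K` and the half-discs of `p` and
`q`, and every set `D ⊇ T` of vertices:
(1) if `δ D` lies in the disc of radius `M`, then `0 < Z < ∞` and the path in `D` from `p` to `q`
stays in `T` with probability at least `exp (- C (log (1/δ))^2)`;
(2) if `D` lies on the side `ε u` of `p` and on the side `ε' u` of `q` (between two parallel lines if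
`ε' = - ε`, in a half-plane if `ε' = ε`), then `0 < Z < ∞` and the path stays in `T` with probability
at least `δ ^ C`. -/
theorem result (W : Set ℂ) (hW : IsOpen W) (hc : IsConnected W) (a b : ℂ) (hab : a ≠ b)
    (ε ε' : ℝ) (hε : ε = 1 ∨ ε = -1) (hε' : ε' = 1 ∨ ε' = -1) (r : ℝ) (hr : 0 < r)
    (ha : HD a ε r ⊆ W) (hb : HD b ε' r ⊆ W) (M : ℝ) :
    ∃ K : Set ℂ, K ⊆ W ∧ IsCompact K ∧ ∃ C : ℕ, 1 ≤ C ∧ ∀ δ : ℝ, 0 < δ → C * δ ≤ 1 →
      ∀ (D T : Set (ℤ × ℤ)) (p q : ℤ × ℤ), Bd ε p → Bd ε' q →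
      C * ‖(δ : ℂ) * emb p - a‖ ≤ 1 → C * ‖(δ : ℂ) * emb q - b‖ ≤ 1 →
      (∀ v : ℤ × ℤ, (δ : ℂ) * emb v ∈ K → v ∈ T) → Hd δ ε r p ⊆ T → Hd δ ε' r q ⊆ T → T ⊆ D →
      ((∀ v ∈ D, ‖(δ : ℂ) * emb v‖ ≤ M) → 0 < Z D p q ∧ Z D p q < ⊤ ∧
        ENNReal.ofReal (Real.exp (-(C * Real.log (1 / δ) ^ 2))) ≤ P D p q T) ∧
      ((∀ v ∈ D, 0 ≤ ε * (lv (emb v) - lv (emb p)) ∧ 0 ≤ ε' * (lv (emb v) - lv (emb q))) →
        0 < Z D p q ∧ Z D p q < ⊤ ∧ ENNReal.ofReal (δ ^ C) ≤ P D p q T) := by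
  obtain ⟨K, hK, hKc, C, hC, h⟩ :=
    Pool.Agent.Y981.Sup.support_all W hW hc a b hab ε ε' hε hε' r hr ha hb M
  refine ⟨K, hK, hKc, C, hC, fun δ hδ hCδ D T p q h1 h2 h3 h4 h5 h6 h7 h8 => ?_⟩
  obtain ⟨g1, g2⟩ := h δ hδ hCδ D T p q h1 h2 h3 h4 h5 h6 h7 h8
  have hpos : (0 : ℝ≥0∞) < ENNReal.ofReal (δ ^ C) := ENNReal.ofReal_pos.2 (pow_pos hδ C)
  refine ⟨fun hM => ?_, fun hL => ?_⟩
  · obtain ⟨e1, e2, e3⟩ := g1 hM
    exact ⟨lt_of_lt_of_le hpos e1, lt_of_le_of_lt e2 ENNReal.ofReal_lt_top, e3⟩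
  · obtain ⟨e1, e2, e3⟩ := g2 hL
    exact ⟨lt_of_lt_of_le hpos e1, lt_of_le_of_lt e2 (by norm_num), e3⟩

end Pool.Agent.Results.MP_4960b8_pr.Support
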